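import Mathlib
import Pool.Agent.Helper87.MD.Goals
import Pool.Agent.Helper59.Lang.Small

/-!
# Project MD, packet SMQ: small denominators (helper66)
-/

set_option autoImplicit false

open Finset
open scoped Classical

namespace Pool.Agent.Helper66.MD

open Pool.Agent.Helper98.Lang Pool.Agent.Helper87.MD

theorem mdSMQ : GFej → SmqStmt := by
  intro hF ξ hξ ε c α hε hc hα0 hα1
  set κ : ℝ := (1 - α) / 8 with hκ
  have hκ0 : 0 < κ := by rw [hκ]; linarith
  have hακ : α = 1 - 8 * κ := by rw [hκ]; ring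
  obtain ⟨C0, hC0, hG⟩ := hF ξ hξ κ hκ0
  set Kε : ℝ := (1 + ε) ^ (1 + ε) with hKε
  have hKε0 : 0 < Kε := Real.rpow_pos_of_pos (by linarith) _
  set C2 : ℝ := C0 * (Kε / (2 * c)) ^ κ with hC2
  have hC20 : 0 < C2 := by positivity
  have hlim : Filter.Tendsto (fun N : ℕ => (N : ℝ) ^ (4 * κ)) Filter.atTop Filter.atTop :=
    (tendsto_rpow_atTop (by positivity)).comp tendsto_natCast_atTop_atTop
  obtain ⟨N0, hN0⟩ := Filter.eventually_atTop.1 (hlim.eventually_ge_atTop C2)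
  refine ⟨max N0 1, fun M d s q hN hs hsK hq hqK => ?_⟩
  have hN1 : 1 ≤ M * d := (le_max_right _ _).trans hN
  have hM : 0 < M := Nat.pos_of_ne_zero (by rintro rfl; simp at hN1)
  have hd : 0 < d := Nat.pos_of_ne_zero (by rintro rfl; simp at hN1)
  have hKN := hN0 (M * d) ((le_max_left _ _).trans hN)
  have hK1 : (1 : ℝ) ≤ ((M * d : ℕ) : ℝ) := by exact_mod_cast hN1
  have hKMd : ((M * d : ℕ) : ℝ) = (M : ℝ) * d := by push_cast; ring
  set K : ℝ := ((M * d : ℕ) : ℝ) with hKdef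
  have hK0 : 0 < K := by linarith
  -- the gcd
  set g : ℕ := Nat.gcd d q with hg
  have hg0 : 0 < g := Nat.gcd_pos_of_pos_left _ hd
  have hgd : g ∣ d := Nat.gcd_dvd_left d q
  have hgq : g ∣ q := Nat.gcd_dvd_right d q
  set d' : ℕ := d / g with hd'
  set q' : ℕ := q / g with hq'
  have hdd : g * d' = d := Nat.mul_div_cancel' hgd
  have hqq : g * q' = q := Nat.mul_div_cancel' hgq
  have hd'0 : 0 < d' := Nat.pos_of_ne_zero (by intro h; rw [h] at hdd; omega)
  have hq'0 : 0 < q' := Nat.pos_of_ne_zero (by intro h; rw [h] at hqq; omega)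
  have hgr : (1 : ℝ) ≤ g := by exact_mod_cast hg0
  have hd'r : (1 : ℝ) ≤ d' := by exact_mod_cast hd'0
  have hq'r : (1 : ℝ) ≤ q' := by exact_mod_cast hq'0
  have hqr : (2 : ℝ) ≤ q := by exact_mod_cast hq
  have hsr : (1 : ℝ) ≤ s := by exact_mod_cast hs
  have hMr : (1 : ℝ) ≤ M := by exact_mod_cast hM
  have hddr : (g : ℝ) * d' = d := by exact_mod_cast hdd
  have hqqr : (g : ℝ) * q' = q := by exact_mod_cast hqq
  have hl : 0 < (q : ℝ) * LL ε q := Pool.Agent.Helper59.Lang.l_pos ε hq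
  have hlK : (q : ℝ) * LL ε q ≤ Kε * (q : ℝ) ^ 2 := Pool.Agent.Helper59.Lang.l_le hε hq
  have het : et c ε d q = c * (d' : ℝ) / (q * LL ε q) := rfl
  have het0 : 0 < et c ε d q := by rw [het]; positivity
  have hrhs : 0 ≤ 12 * c * K / (q * LL ε q) := by positivity
  have hrhs2 : 0 ≤ K ^ (1 - (1 - α) / 4) := (Real.rpow_pos_of_pos hK0 _).le
  by_cases he : et c ε d q < 1 / 2
  swap
  · have hW : WW ξ c ε s M d q = 0 := by
      unfold WW
      rw [Finset.card_eq_zero, Finset.filter_eq_empty_iff]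
      intro a _ h
      exact he h.1
    rw [hW]
    simp only [Nat.cast_zero, mul_zero]
    linarith
  set η : ℝ := et c ε d q with hη
  set x : ℝ := 1 / (2 * η) with hx
  have hx1 : 1 ≤ x := by rw [hx, le_div_iff₀ (by positivity)]; linarith
  have hx0 : 0 < x := by linarith
  set H : ℕ := ⌊x⌋₊ with hH
  have hH1 : 1 ≤ H := Nat.le_floor (by simpa using hx1)
  have hHr : (1 : ℝ) ≤ H := by exact_mod_cast hH1
  have hHle : (H : ℝ) ≤ x := Nat.floor_le (by positivity)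
  have hHge : x / 2 ≤ H := by
    have h1 : x < H + 1 := Nat.lt_floor_add_one _
    linarith
  obtain ⟨G, c0, hG0, -, hG1, -, hc0, hGs⟩ := hG H hH1
  have hsq : 1 ≤ s * q' := Nat.mul_pos hs hq'0
  have hs1 := hGs (s * q') M hsq
  have hηH : η ≤ 1 / (2 * H) := by
    rw [le_div_iff₀ (by positivity)]
    have h1 : (H : ℝ) * (2 * η) ≤ 1 := by
      have := hHle
      rw [hx, le_div_iff₀ (by positivity)] at this
      exact this
    linarith
  have h1 : (WW ξ c ε s M d q : ℝ) ≤ ∑ n ∈ Icc 1 M, G ((n : ℝ) * (((s * q' : ℕ) : ℝ) * ξ)) := by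
    unfold WW
    rw [Finset.card_eq_sum_ones, Nat.cast_sum]
    refine (Finset.sum_le_sum (fun a ha => ?_)).trans
      (Finset.sum_le_sum_of_subset_of_nonneg (Finset.filter_subset _ _)
        (fun a _ _ => hG0 ((a : ℝ) * (((s * q' : ℕ) : ℝ) * ξ))))
    rw [Nat.cast_one]
    apply hG1
    have h2 := (Finset.mem_filter.1 ha).2.2
    have h3 : (a : ℝ) * (((s * q' : ℕ) : ℝ) * ξ) =
        (s : ℝ) * a * ((q / Nat.gcd d q : ℕ) : ℝ) * ξ := by
      rw [← hg, ← hq']; push_cast; ring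
    rw [h3]
    exact h2.trans hηH
  have h2 : ∑ n ∈ Icc 1 M, G ((n : ℝ) * (((s * q' : ℕ) : ℝ) * ξ)) ≤
      c0 * M + C0 * (H : ℝ) ^ κ * ((s * q' : ℕ) : ℝ) ^ (1 + κ) := by
    have := (abs_le.1 hs1).2
    linarith
  have hmain : (g : ℝ) * (c0 * M) ≤ 12 * c * K / (q * LL ε q) := by
    have h4 : c0 ≤ 12 * η := by
      refine hc0.trans ?_
      rw [div_le_iff₀ (by linarith)]
      have h5 : 1 / 4 ≤ η * H := by
        have h6 : η * (x / 2) = 1 / 4 := by rw [hx]; field_simp; norm_num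
        have h7 : η * (x / 2) ≤ η * H := mul_le_mul_of_nonneg_left hHge het0.le
        linarith
      linarith
    calc (g : ℝ) * (c0 * M) ≤ g * (12 * η * M) := by
          apply mul_le_mul_of_nonneg_left _ (by linarith)
          exact mul_le_mul_of_nonneg_right h4 (by linarith)
      _ = 12 * c * K / (q * LL ε q) := by
          rw [het, hKMd, ← hddr]; ring
  have herr : (g : ℝ) * (C0 * (H : ℝ) ^ κ * ((s * q' : ℕ) : ℝ) ^ (1 + κ)) ≤
      K ^ (1 - (1 - α) / 4) := by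
    have hq0 : (0 : ℝ) < q := by linarith
    have hs0 : (0 : ℝ) < s := by linarith
    have e1 : (H : ℝ) ^ κ ≤ (Kε / (2 * c)) ^ κ * (q : ℝ) ^ (2 * κ) := by
      have h3 : (H : ℝ) ≤ Kε / (2 * c) * (q : ℝ) ^ 2 := by
        refine hHle.trans ?_
        have h4 : x = (q : ℝ) * LL ε q / (2 * c * d') := by
          rw [hx, het]; field_simp
        rw [h4]
        calc (q : ℝ) * LL ε q / (2 * c * d') ≤ (q : ℝ) * LL ε q / (2 * c) := by
              apply div_le_div_of_nonneg_left hl.le (by positivity)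
              nlinarith
          _ ≤ Kε * (q : ℝ) ^ 2 / (2 * c) := div_le_div_of_nonneg_right hlK (by positivity)
          _ = Kε / (2 * c) * (q : ℝ) ^ 2 := by ring
      refine (Real.rpow_le_rpow (by linarith) h3 hκ0.le).trans_eq ?_
      rw [Real.mul_rpow (by positivity) (by positivity), ← Real.rpow_natCast (q : ℝ) 2,
        ← Real.rpow_mul hq0.le]
      norm_num
    have e2 : (g : ℝ) * ((s * q' : ℕ) : ℝ) ^ (1 + κ) ≤ (s : ℝ) ^ (1 + κ) * (q : ℝ) ^ (1 + κ) := by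
      have h3 : ((s * q' : ℕ) : ℝ) ^ (1 + κ) = (s : ℝ) ^ (1 + κ) * (q' : ℝ) ^ (1 + κ) := by
        push_cast
        exact Real.mul_rpow (by linarith) (by linarith)
      have h4 : (g : ℝ) * (q' : ℝ) ^ (1 + κ) ≤ (q : ℝ) ^ (1 + κ) := by
        rw [← hqqr, Real.mul_rpow (by linarith) (by linarith)]
        apply mul_le_mul_of_nonneg_right _ (by positivity)
        nth_rewrite 1 [← Real.rpow_one (g : ℝ)]
        exact Real.rpow_le_rpow_of_exponent_le hgr (by linarith)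
      calc (g : ℝ) * ((s * q' : ℕ) : ℝ) ^ (1 + κ)
          = (s : ℝ) ^ (1 + κ) * ((g : ℝ) * (q' : ℝ) ^ (1 + κ)) := by rw [h3]; ring
        _ ≤ (s : ℝ) ^ (1 + κ) * (q : ℝ) ^ (1 + κ) :=
          mul_le_mul_of_nonneg_left h4 (by positivity)
    have e3 : (s : ℝ) ^ (1 + κ) ≤ K ^ (α * (1 + κ)) := by
      rw [Real.rpow_mul hK0.le]
      exact Real.rpow_le_rpow hs0.le hsK (by linarith)
    have e4 : (q : ℝ) ^ (2 * κ) * (q : ℝ) ^ (1 + κ) ≤ K ^ (κ * (1 + 3 * κ)) := by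
      rw [← Real.rpow_add hq0, Real.rpow_mul hK0.le]
      have : 2 * κ + (1 + κ) = 1 + 3 * κ := by ring
      rw [this]
      exact Real.rpow_le_rpow hq0.le hqK (by positivity)
    calc (g : ℝ) * (C0 * (H : ℝ) ^ κ * ((s * q' : ℕ) : ℝ) ^ (1 + κ))
        = C0 * (H : ℝ) ^ κ * ((g : ℝ) * ((s * q' : ℕ) : ℝ) ^ (1 + κ)) := by ring
      _ ≤ C0 * ((Kε / (2 * c)) ^ κ * (q : ℝ) ^ (2 * κ)) *
            ((s : ℝ) ^ (1 + κ) * (q : ℝ) ^ (1 + κ)) := by
          apply mul_le_mul _ e2 (by positivity) (by positivity)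
          exact mul_le_mul_of_nonneg_left e1 hC0.le
      _ = C2 * ((s : ℝ) ^ (1 + κ) * ((q : ℝ) ^ (2 * κ) * (q : ℝ) ^ (1 + κ))) := by
          rw [hC2]; ring
      _ ≤ K ^ (4 * κ) * (K ^ (α * (1 + κ)) * K ^ (κ * (1 + 3 * κ))) := by
          apply mul_le_mul hKN _ (by positivity) (by positivity)
          exact mul_le_mul e3 e4 (by positivity) (by positivity)
      _ = K ^ (4 * κ + (α * (1 + κ) + κ * (1 + 3 * κ))) := by
          rw [← Real.rpow_add hK0, ← Real.rpow_add hK0]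
      _ ≤ K ^ (1 - (1 - α) / 4) := by
          apply Real.rpow_le_rpow_of_exponent_le hK1
          rw [hακ]
          nlinarith [sq_nonneg κ]
  calc (g : ℝ) * WW ξ c ε s M d q
      ≤ g * (c0 * M + C0 * (H : ℝ) ^ κ * ((s * q' : ℕ) : ℝ) ^ (1 + κ)) :=
        mul_le_mul_of_nonneg_left (h1.trans h2) (by linarith)
    _ = g * (c0 * M) + g * (C0 * (H : ℝ) ^ κ * ((s * q' : ℕ) : ℝ) ^ (1 + κ)) := by ring
    _ ≤ 12 * c * K / (q * LL ε q) + K ^ (1 - (1 - α) / 4) := add_le_add hmain herr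

end Pool.Agent.Helper66.MD
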